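import Pool.Agent.J4H16.LI.Stm5

/-!
# Project LI, (TOP): the part of an arc near its upper end as a graph over the `x`-axis
-/

set_option autoImplicit false

open Set MeasureTheory Filter Topology

namespace Pool.Agent.J4H82.LI

open Pool.Agent.J4H16.LI

theorem t_TOP : S_TOP := by
  intro F s B Y K x₀ u harc hK hF hx0 hxY
  have hY := harc.hY
  have hB := harc.hB
  have hcont := harc.cont
  have huY : u Y = 0 := harc.out Y (by simp)
  have hKx : K * x₀ ≤ Y / 4 := by nlinarith
  have hx0Y : x₀ ≤ Y / 4 := by nlinarith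
  have hunn : ∀ y, 0 ≤ u y := by
    intro y
    by_cases h : y ∈ Ioo (-B) Y
    · exact (harc.pos y h).le
    · exact (harc.out y h).ge
  have hin : ∀ y, Y / 2 ≤ y → y < Y → y ∈ Ioo (-B) Y := fun y h1 h2 => ⟨by linarith, h2⟩
  -- some point at or above height `Y / 2` has `u ≥ x₀`
  have hex : ∃ y ∈ Icc (Y / 2) Y, x₀ ≤ u y := by
    by_contra hcon
    push Not at hcon
    have hanti : AntitoneOn (fun y => u y ^ 2 / 2 + Y / 4 * y) (Icc (Y / 2) Y) := by
      refine antitoneOn_of_deriv_nonpos (convex_Icc _ _) (by fun_prop) ?_ ?_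
      · rw [interior_Icc]
        intro y hy
        have h := harc.der y (hin y hy.1.le hy.2)
        have := ((h.pow 2).div_const 2).add ((hasDerivAt_id y).const_mul (Y / 4))
        exact this.differentiableAt.differentiableWithinAt
      · rw [interior_Icc]
        intro y hy
        have hyI := hin y hy.1.le hy.2
        have h := harc.der y hyI
        have hpos := harc.pos y hyI
        have h2 := ((h.pow 2).div_const 2).add ((hasDerivAt_id y).const_mul (Y / 4))
        have h3 : deriv (fun y => u y ^ 2 / 2 + Y / 4 * y) y =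
            - (y - F (u y) - s * u y) + Y / 4 := by
          have h4 := h2.deriv
          have h5 : (fun y => u y ^ 2 / 2 + Y / 4 * y) =
              ((fun i => (u ^ 2) i / 2) + fun y => Y / 4 * id y) := by
            funext z
            simp
          rw [h5, h4]
          field_simp
          ring
        rw [h3]
        have h6 := abs_le.mp (hF y)
        have h7 := hcon y ⟨hy.1.le, hy.2.le⟩
        have h8 : K * u y ≤ K * x₀ := mul_le_mul_of_nonneg_left h7.le hK
        linarith [h6.2, hy.1]
    have h1 := hanti (left_mem_Icc.mpr (by linarith)) (right_mem_Icc.mpr (by linarith))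
      (by linarith : Y / 2 ≤ Y)
    simp only [huY] at h1
    have h2 := hcon (Y / 2) ⟨le_refl _, by linarith⟩
    have h3 : u (Y / 2) ^ 2 < x₀ ^ 2 := by
      have := hunn (Y / 2)
      nlinarith
    nlinarith
  -- the last one
  set S : Set ℝ := {y ∈ Icc (Y / 2) Y | x₀ ≤ u y} with hS
  have hScl : IsCompact S := by
    have : S = Icc (Y / 2) Y ∩ {y | x₀ ≤ u y} := rfl
    rw [this]
    exact isCompact_Icc.inter_right (isClosed_le continuous_const hcont)
  have hSne : S.Nonempty := by
    obtain ⟨y, hy1, hy2⟩ := hex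
    exact ⟨y, hy1, hy2⟩
  obtain ⟨η, hηS, hηmax⟩ := hScl.exists_isMaxOn hSne continuousOn_id
  have hη1 : Y / 2 ≤ η := hηS.1.1
  have hη2 : x₀ ≤ u η := hηS.2
  have hηY : η < Y := by
    refine lt_of_le_of_ne hηS.1.2 ?_
    rintro rfl
    rw [huY] at hη2
    linarith
  have hlt : ∀ y, η < y → u y < x₀ := by
    intro y hy
    by_cases hyY : y ≤ Y
    · by_contra hcon
      rw [not_lt] at hcon
      have h1 : y ∈ S := ⟨⟨by linarith, hyY⟩, hcon⟩
      have h2 := hηmax h1
      simp only [id, mem_setOf_eq] at h2
      linarith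
    · rw [harc.out y (fun h => hyY h.2.le)]
      exact hx0
  have hηx : u η = x₀ := by
    refine le_antisymm ?_ hη2
    have h1 : Tendsto u (𝓝[>] η) (𝓝 (u η)) := (hcont.tendsto η).mono_left nhdsWithin_le_nhds
    refine le_of_tendsto h1 ?_
    filter_upwards [self_mem_nhdsWithin] with y hy
    exact (hlt y hy).le
  -- slope at most `-1`
  have hder : ∀ y ∈ Ioo η Y, 0 < y - F (u y) - s * u y ∧
      -(y - F (u y) - s * u y) / u y ≤ -1 := by
    intro y hy
    have hpos := harc.pos y (hin y (by linarith [hy.1]) hy.2)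
    have h6 := abs_le.mp (hF y)
    have h7 := hlt y hy.1
    have h8 : K * u y ≤ K * x₀ := mul_le_mul_of_nonneg_left h7.le hK
    have h9 : Y / 4 ≤ y - F (u y) - s * u y := by linarith [h6.2, hy.1]
    refine ⟨by linarith, ?_⟩
    rw [div_le_iff₀ hpos]
    linarith
  have hanti : AntitoneOn (fun y => u y + y) (Icc η Y) := by
    refine antitoneOn_of_deriv_nonpos (convex_Icc _ _) (by fun_prop) ?_ ?_
    · rw [interior_Icc]
      intro y hy
      have h := harc.der y (hin y (by linarith [hy.1]) hy.2)
      exact (h.add (hasDerivAt_id y)).differentiableAt.differentiableWithinAt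
    · rw [interior_Icc]
      intro y hy
      have h := harc.der y (hin y (by linarith [hy.1]) hy.2)
      have h2 := (h.add (hasDerivAt_id y)).deriv
      have h3 : (fun y => u y + y) = (u + id) := by funext z; simp
      rw [h3, h2]
      have := (hder y hy).2
      linarith
  -- the inverse
  have hsurj : ∀ x ∈ Icc (0 : ℝ) x₀, ∃ y ∈ Icc η Y, u y = x := by
    intro x hx
    have h1 := intermediate_value_Icc' hηY.le hcont.continuousOn
    rw [huY, hηx] at h1
    exact h1 hx
  choose! w hwI hwu using hsurj
  have hlip : ∀ a ∈ Icc (0 : ℝ) x₀, ∀ b ∈ Icc (0 : ℝ) x₀, |w a - w b| ≤ |a - b| := by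
    intro a ha b hb
    rcases le_total (w a) (w b) with h | h
    · have h1 := hanti (hwI a ha) (hwI b hb) h
      simp only [hwu a ha, hwu b hb] at h1
      rw [abs_of_nonpos (by linarith)]
      exact le_trans (by linarith) (le_abs_self (a - b))
    · have h1 := hanti (hwI b hb) (hwI a ha) h
      simp only [hwu a ha, hwu b hb] at h1
      rw [abs_of_nonneg (by linarith)]
      exact le_trans (by linarith) (neg_le_abs (a - b))
  have hwc : ContinuousOn w (Icc 0 x₀) := by
    have : LipschitzOnWith 1 w (Icc 0 x₀) := by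
      refine LipschitzOnWith.of_dist_le_mul fun a ha b hb => ?_
      rw [Real.dist_eq, Real.dist_eq, NNReal.coe_one, one_mul]
      exact hlip a ha b hb
    exact this.continuousOn
  have h00 : (0 : ℝ) ∈ Icc (0 : ℝ) x₀ := ⟨le_refl _, hx0.le⟩
  refine ⟨w, ?_, hwc, ?_, ?_, ?_⟩
  · have h1 := hanti (hwI 0 h00) (right_mem_Icc.mpr hηY.le) (hwI 0 h00).2
    simp only [hwu 0 h00, huY] at h1
    linarith [(hwI 0 h00).2]
  · intro x hx
    exact ⟨hη1.trans (hwI x hx).1, (hwI x hx).2, hwu x hx⟩
  · intro x hx
    have hxI : x ∈ Icc (0 : ℝ) x₀ := Ioo_subset_Icc_self hx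
    have hw1 : w x ∈ Ioo η Y := by
      refine ⟨lt_of_le_of_ne (hwI x hxI).1 ?_, lt_of_le_of_ne (hwI x hxI).2 ?_⟩
      · intro h
        have := hwu x hxI
        rw [← h, hηx] at this
        linarith [hx.2]
      · intro h
        have := hwu x hxI
        rw [h, huY] at this
        linarith [hx.1]
    have hd := harc.der (w x) (hin (w x) (by linarith [hw1.1]) hw1.2)
    have hd2 := (hder (w x) hw1).1
    rw [hwu x hxI] at hd hd2
    have hne : -(w x - F x - s * x) / x ≠ 0 := by
      have h1 := hx.1
      exact div_ne_zero (by linarith) h1.ne'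
    have hca : ContinuousAt w x := hwc.continuousAt (Icc_mem_nhds hx.1 hx.2)
    have hev : ∀ᶠ z in 𝓝 x, u (w z) = z := by
      filter_upwards [Icc_mem_nhds hx.1 hx.2] with z hz
      exact hwu z hz
    have h := HasDerivAt.of_local_left_inverse hca hd hne hev
    have he : (-(w x - F x - s * x) / x)⁻¹ = -x / (w x - F x - s * x) := by
      rw [inv_div, div_neg, neg_div]
    rwa [he] at h
  · intro x hx y hy
    have hxI : x ∈ Icc (0 : ℝ) x₀ := ⟨hx.1.le, hx.2⟩
    by_contra hcon
    rw [not_le] at hcon
    by_cases hyY : y < Y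
    · have h1 := hanti (hwI x hxI) ⟨(hwI x hxI).1.trans hcon.le, hyY.le⟩ hcon.le
      simp only [hwu x hxI] at h1
      linarith
    · rw [harc.out y (fun h => hyY h.2)] at hy
      linarith [hx.1]

end Pool.Agent.J4H82.LI
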